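import Pool.Agent.Q219.SAW.HalfS

/-!
Half-plane self-avoiding walk on the square lattice: the ratio of the numbers of walks with `n + 2`
and `n` steps, and the law of the walk outside a window of times.
-/

set_option autoImplicit false

namespace Pool.Agent.Results.MP_df1d0b_pr.HalfPlaneWindow

open Q219.SAW.Std

/-- the closed upper half plane -/
def HP : Set (ℤ × ℤ) := {x | 0 ≤ x.2}

/-- the number of `n`-step self-avoiding walks on the square lattice from the origin which stay in
the closed upper half plane -/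
noncomputable def h (n : ℕ) : ℝ :=
  ({ω : Fin (n + 1) → ℤ × ℤ | IsSAW sqSteps n ω ∧ ∀ i, ω i ∈ HP}.ncard : ℝ)

/-- the probability of an event `H` for the outer part of the uniform `n`-step half-plane walk -/
noncomputable def probH {a m : ℕ} (H : Set (Pairs a m)) (n : ℕ) : ℝ :=
  ((walks sqSteps HP H n).ncard : ℝ) / h n

theorem walks_univ (a m n : ℕ) : ((walks sqSteps HP (Set.univ : Set (Pairs a m)) n).ncard : ℝ) =
    h n := by
  unfold h
  congr 2
  ext ω
  unfold walks
  rw [Set.mem_ofPred_eq, Set.mem_ofPred_eq]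
  simp

/-- **Theorem.** Let `h_n` be the number of `n`-step self-avoiding walks on the square lattice in
the closed upper half plane, and let `μ_n` be the uniform law on them. There is `K` such that:
(1) `|h_{n+2} / h_n - μ ^ 2| ≤ K log n / √n` for all `n ≥ 2`, where `μ` is the connective constant;
(2) for every window `n = a + L + m ≥ 2`, `L ≥ 1`, and every event `H` for the outer part (the first
`a + 1` and the last `m + 1` sites) with `q = μ_n(H) > 0`, the conditional means of all functions
`0 ≤ G ≤ 1` of the outer part satisfy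
`|μ_{n+2}[G | H] - μ_n[G | H]| ≤ K ((log² n + log (1/q)) / L)^(1/2)`. -/
theorem result : ∃ K : ℝ,
    (∀ n : ℕ, 2 ≤ n → |h (n + 2) / h n - mu sqSteps ^ 2| ≤ K * (Real.log n / √n)) ∧
    (∀ (a L m : ℕ) (H : Set (Pairs a m)), 2 ≤ a + L + m → 1 ≤ L → 0 < probH H (a + L + m) →
      ∀ G : Pairs a m → ℝ, (∀ o, 0 ≤ G o) → (∀ o, G o ≤ 1) →
      |mean sqSteps HP H (a + L + m + 2) G - mean sqSteps HP H (a + L + m) G| ≤
        K * √((Real.log (a + L + m : ℕ) ^ 2 + Real.log (1 / probH H (a + L + m))) / L)) := by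
  have hL : IsLat sqSteps 2 := Or.inl ⟨rfl, rfl⟩
  obtain ⟨K₁, hK₁, hhalf⟩ := half_prob
  obtain ⟨R, hR, htv⟩ := tv hL
  obtain ⟨R', δ, hR', hδ, hrat⟩ := ratio hL
  obtain ⟨hμ1, -, -⟩ := c_bounds hL
  have hμ0 : 0 < mu sqSteps := by linarith
  have hHP : ∀ x : ℤ × ℤ, 0 ≤ x.2 → x ∈ HP := fun x hx => hx
  have hc := c_pos hL
  have hph : ∀ n : ℕ, 2 ≤ n → Real.exp (-(K₁ * Real.log n ^ 2)) ≤ h n / c sqSteps n := by
    intro n hn
    have h1 := hhalf n hn HP hHP 0 0
    unfold prob at h1
    rwa [walks_univ] at h1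
  -- the ratio
  have hcount : ∀ n, count sqSteps HP Set.univ n = h n := by
    intro n
    unfold count h
    congr 2
    ext ω
    rw [Set.mem_ofPred_eq, Set.mem_ofPred_eq]
    simp
  obtain ⟨n₀, hn₀, hsm⟩ := small_log (C := 1 + K₁) (by positivity) hδ
  obtain ⟨K₂, hK₂⟩ := all_of_large (F := fun n => |h (n + 2) / h n - mu sqSteps ^ 2|)
    (g := fun n => Real.log n / √(n : ℝ)) (R := mu sqSteps ^ 2 * (R' * √(1 + K₁))) (n₀ := n₀)
    logdiv_pos (by
    intro n hn
    have hn2 : 2 ≤ n := hn₀.trans hn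
    have hn0 : (0 : ℝ) < n := by exact_mod_cast (show 0 < n by omega)
    have h1 := hph n hn2
    have h2 := err_le hK₁ (Real.log_natCast_nonneg n) hn0 h1
    have hp0 : 0 < h n / c sqSteps n := (Real.exp_pos _).trans_le h1
    have h3 := hsm n hn
    obtain ⟨h4, -⟩ := hrat n HP Set.univ hn2 (by
      rw [hcount]
      refine le_trans (Real.exp_le_exp.2 ?_) h1
      have : K₁ * Real.log n ^ 2 ≤ (1 + K₁) * Real.log n ^ 2 := by
        have := sq_nonneg (Real.log n)
        nlinarith
      linarith)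
    rw [hcount, hcount] at h4
    have e : h (n + 2) / h n - mu sqSteps ^ 2 =
        mu sqSteps ^ 2 * (h (n + 2) / h n / mu sqSteps ^ 2 - 1) := by
      field_simp
    show |h (n + 2) / h n - mu sqSteps ^ 2| ≤ _
    rw [e, abs_mul, abs_of_pos (show 0 < mu sqSteps ^ 2 by positivity), mul_assoc,
      mul_assoc R']
    refine mul_le_mul_of_nonneg_left (h4.trans ?_) (by positivity)
    exact mul_le_mul_of_nonneg_left h2.2 hR'.le)
  refine ⟨|K₂| + R * √(1 + K₁), ?_, ?_⟩
  · intro n hn
    refine (hK₂ n hn).trans ?_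
    refine mul_le_mul_of_nonneg_right ?_ (logdiv_pos n hn).le
    have h1 := le_abs_self K₂
    have h2 : 0 ≤ R * √(1 + K₁) := by positivity
    linarith
  · intro a L m H hN hL1 hq G hG0 hG1
    obtain ⟨n, hn⟩ : ∃ n, n = a + L + m := ⟨_, rfl⟩
    have h1 := hph (a + L + m) hN
    have hh0 : 0 < h (a + L + m) := by
      have h2 : 0 < h (a + L + m) / c sqSteps (a + L + m) := (Real.exp_pos _).trans_le h1
      rcases lt_or_ge 0 (h (a + L + m)) with h3 | h3
      · exact h3
      · exact absurd h2 (not_lt.2 (div_nonpos_of_nonpos_of_nonneg h3 (hc _).le))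
    have e : prob sqSteps HP H (a + L + m) =
        h (a + L + m) / c sqSteps (a + L + m) * probH H (a + L + m) := by
      unfold prob probH
      field_simp
    have hp : 0 < prob sqSteps HP H (a + L + m) := by
      rw [e]
      exact mul_pos (div_pos hh0 (hc _)) hq
    have h2 := htv a L m HP H hN hL1 hp G hG0 hG1
    refine h2.trans ?_
    have hq1 : probH H (a + L + m) ≤ 1 := by
      unfold probH
      rw [div_le_one hh0, ← walks_univ a m]
      refine Nat.cast_le.2 (Set.ncard_le_ncard ?_ ((finite hL _).subset fun ω hω => hω.1))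
      rintro ω ⟨h3, h4, -⟩
      exact ⟨h3, h4, Set.mem_univ _⟩
    have hlq : 0 ≤ Real.log (1 / probH H (a + L + m)) :=
      Real.log_nonneg (by rw [le_div_iff₀ hq]; linarith)
    have h3 : Real.log (a + L + m : ℕ) ^ 2 + Real.log (1 / prob sqSteps HP H (a + L + m)) ≤
        (1 + K₁) * (Real.log (a + L + m : ℕ) ^ 2 + Real.log (1 / probH H (a + L + m))) := by
      rw [e, one_div, Real.log_inv, Real.log_mul (div_pos hh0 (hc _)).ne' hq.ne']
      have h4 := Real.log_le_log (Real.exp_pos _) h1
      rw [Real.log_exp] at h4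
      rw [one_div, Real.log_inv] at hlq ⊢
      nlinarith [mul_nonneg hK₁ hlq]
    have hL0 : (0 : ℝ) < L := by exact_mod_cast hL1
    have h4 : √((Real.log (a + L + m : ℕ) ^ 2 +
        Real.log (1 / prob sqSteps HP H (a + L + m))) / L) ≤ √(1 + K₁) *
        √((Real.log (a + L + m : ℕ) ^ 2 + Real.log (1 / probH H (a + L + m))) / L) := by
      rw [← Real.sqrt_mul (by positivity)]
      refine Real.sqrt_le_sqrt ?_
      rw [← mul_div_assoc]
      exact div_le_div_of_nonneg_right h3 hL0.le
    calc _ ≤ R * (√(1 + K₁) *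
          √((Real.log (a + L + m : ℕ) ^ 2 + Real.log (1 / probH H (a + L + m))) / L)) :=
          mul_le_mul_of_nonneg_left h4 hR.le
      _ = R * √(1 + K₁) *
          √((Real.log (a + L + m : ℕ) ^ 2 + Real.log (1 / probH H (a + L + m))) / L) := by ring
      _ ≤ _ := by
          refine mul_le_mul_of_nonneg_right ?_ (Real.sqrt_nonneg _)
          have := abs_nonneg K₂
          linarith

end Pool.Agent.Results.MP_df1d0b_pr.HalfPlaneWindow
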