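import Pool.Agent.Q215.SAW.HalfWin
import Pool.Agent.Q215.SAW.Lat

/-!
Half-plane self-avoiding walk on the triangular and on the hexagonal grid: the ratio of the numbers
of walks with `n + s` and `n` steps (`s = 1` and `s = 4`), and the law of the walk outside a window
of times; the same in every domain which contains the half plane, uniformly in the domain.
-/

set_option autoImplicit false

namespace Pool.Agent.Results.MP_df1d0b_pr.OtherGridsWindow

/-- The triangular and the hexagonal grid, in integer coordinates: the adjacency of the sites and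
their positions in the plane (adjacent sites are at distance `1`, the horizontal direction is that
of an edge). Here `s = 1` for the triangular and `s = 4` for the hexagonal grid. -/
def IsGrid (Adj : ℤ × ℤ → ℤ × ℤ → Prop) (pos : ℤ × ℤ → ℂ) (s : ℕ) : Prop :=
  (Adj = (fun p q : ℤ × ℤ =>
      q - p ∈ ({(1, 0), (-1, 0), (0, 1), (0, -1), (1, -1), (-1, 1)} : Set (ℤ × ℤ))) ∧
    pos = (fun p => ⟨((p.1 : ℝ) - p.2) / 2, √3 / 2 * (p.1 + p.2)⟩) ∧ s = 1) ∨
  (Adj = (fun p q : ℤ × ℤ =>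
      q - p = (1, 0) ∨ q - p = (-1, 0) ∨
      (q - p = (0, 1) ∧ Even (p.1 + p.2)) ∨
      (q - p = (0, -1) ∧ Even (q.1 + q.2))) ∧
    pos = (fun p => ⟨(3 * p.2 - ((p.1 + p.2) % 2 : ℤ)) / 2, √3 / 2 * p.1⟩) ∧ s = 4)

/-- `ω` is an `n`-step self-avoiding walk started at the origin. -/
def IsWalk (Adj : ℤ × ℤ → ℤ × ℤ → Prop) (n : ℕ) (ω : Fin (n + 1) → ℤ × ℤ) : Prop :=
  ω 0 = 0 ∧ Function.Injective ω ∧ ∀ i : Fin n, Adj (ω i.castSucc) (ω i.succ)

/-- the connective constant -/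
noncomputable def mu (Adj : ℤ × ℤ → ℤ × ℤ → Prop) : ℝ :=
  ⨅ n : {n : ℕ // 1 ≤ n}, ({ω | IsWalk Adj n.1 ω}.ncard : ℝ) ^ ((1 : ℝ) / (n.1 : ℝ))

/-- the number of `n`-step self-avoiding walks from the origin which stay in `D` -/
noncomputable def h (Adj : ℤ × ℤ → ℤ × ℤ → Prop) (D : Set (ℤ × ℤ)) (n : ℕ) : ℝ :=
  ({ω | IsWalk Adj n ω ∧ ∀ i, ω i ∈ D}.ncard : ℝ)

/-- pairs of a path with `a + 1` sites and a path with `m + 1` sites -/
abbrev Pairs (a m : ℕ) := (Fin (a + 1) → ℤ × ℤ) × (Fin (m + 1) → ℤ × ℤ)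

/-- The first `a + 1` sites `ω(0), …, ω(a)` and the last `m + 1` sites `ω(n-m), …, ω(n)` of a path
with `n` steps (used for `n ≥ a + m`): the path outside the window of times between `a` and
`n - m`. -/
def outer (a m : ℕ) {n : ℕ} (ω : Fin (n + 1) → ℤ × ℤ) : Pairs a m :=
  (fun i => ω (Fin.ofNat (n + 1) i), fun j => ω (Fin.ofNat (n + 1) (n - m + j)))

/-- the `n`-step self-avoiding walks which stay in `D` and whose outer part is in `H` -/
def walks (Adj : ℤ × ℤ → ℤ × ℤ → Prop) (D : Set (ℤ × ℤ)) {a m : ℕ} (H : Set (Pairs a m)) (n : ℕ) :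
    Set (Fin (n + 1) → ℤ × ℤ) :=
  {ω | IsWalk Adj n ω ∧ (∀ i, ω i ∈ D) ∧ outer a m ω ∈ H}

/-- the probability of the event `H` for the outer part of the uniform `n`-step walk in `D` -/
noncomputable def probH (Adj : ℤ × ℤ → ℤ × ℤ → Prop) (D : Set (ℤ × ℤ)) {a m : ℕ}
    (H : Set (Pairs a m)) (n : ℕ) : ℝ :=
  ((walks Adj D H n).ncard : ℝ) / h Adj D n

/-- the conditional mean of `G(outer part)` given this event -/
noncomputable def mean (Adj : ℤ × ℤ → ℤ × ℤ → Prop) (D : Set (ℤ × ℤ)) {a m : ℕ}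
    (H : Set (Pairs a m)) (n : ℕ) (G : Pairs a m → ℝ) : ℝ :=
  (∑ᶠ ω ∈ walks Adj D H n, G (outer a m ω)) / ((walks Adj D H n).ncard : ℝ)

/-- the facts about the grids -/
theorem facts {Adj : ℤ × ℤ → ℤ × ℤ → Prop} {pos : ℤ × ℤ → ℂ} {s : ℕ} (hg : IsGrid Adj pos s) :
    ∃ (Z : TH966.AK.Rule Adj) (K : ℝ), Z.s = s ∧ Q215.SAW.Nice Z K ∧
      Nonempty (Q215.SAW.Vt Adj) ∧ ∃ K₁ : ℝ, 0 ≤ K₁ ∧ ∀ D : Set (ℤ × ℤ),
        (∀ p : ℤ × ℤ, 0 ≤ (pos p).im → p ∈ D) → ∀ n : ℕ, 2 ≤ n →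
        Real.exp (-(K₁ * Real.log n ^ 2)) ≤ Q215.SAW.prD Adj D n := by
  have h3 : 0 < √(3 : ℝ) / 2 := by positivity
  rcases hg with ⟨h, hpos, rfl⟩ | ⟨h, hpos, rfl⟩
  · obtain ⟨K, hK⟩ := Q215.SAW.tri_nice
    obtain ⟨K₁, hK₁, hh⟩ := Q215.SAW.half_tri
    have e0 : Adj = Q215.SAW.triAdj := h
    have e : Adj = TH966.AK.Tri.A := by
      rw [← Q215.SAW.tri_eq]; exact h
    subst e
    refine ⟨_, K, rfl, hK, ⟨Q215.SAW.triV⟩, K₁, hK₁, fun D hD n hn => ?_⟩
    rw [Q215.SAW.prD_eq _ _ 0 0]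
    have h4 := hh n hn D (fun x hx => hD x (by
      rw [hpos]
      have : (0 : ℝ) ≤ ((x.1 + x.2 : ℤ) : ℝ) := by exact_mod_cast hx
      push_cast at this
      exact mul_nonneg h3.le this)) 0 0
    rw [Q215.SAW.tri_eq] at h4
    exact h4
  · obtain ⟨K, hK⟩ := Q215.SAW.hex4_nice
    obtain ⟨K₁, hK₁, hh⟩ := Q215.SAW.half_hex
    have e : Adj = TH966.AK.Hex.A := by
      rw [← Q215.SAW.hex_eq]; exact h
    subst e
    refine ⟨_, K, rfl, hK, ⟨Q215.SAW.hexV⟩, K₁, hK₁, fun D hD n hn => ?_⟩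
    rw [Q215.SAW.prD_eq _ _ 0 0]
    have h4 := hh n hn D (fun x hx => hD x (by
      rw [hpos]
      have : (0 : ℝ) ≤ (x.1 : ℝ) := by exact_mod_cast hx
      exact mul_nonneg h3.le this)) 0 0
    rw [Q215.SAW.hex_eq] at h4
    exact h4

/-- **Theorem.** Let `Adj`, `pos`, `s` be the triangular grid (`s = 1`) or the hexagonal grid
(`s = 4`), and let `μ` be its connective constant. There is `K` such that for every set `D` of sites
which contains all sites in the closed upper half plane (for instance the set of these sites), the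
numbers `h_n` of the `n`-step self-avoiding walks from `0` in `D` and the uniform law `μ_n` on them
satisfy:
(1) `|h_{n+s} / h_n - μ ^ s| ≤ K log n / √n` for all `n ≥ 2`;
(2) for every window `n = a + L + m ≥ 2`, `L ≥ 1`, and every event `H` for the outer part (the first
`a + 1` and the last `m + 1` sites) with `q = μ_n(H) > 0`, the conditional means of all functions
`0 ≤ G ≤ 1` of the outer part satisfy
`|μ_{n+s}[G | H] - μ_n[G | H]| ≤ K ((log² n + log (1/q)) / L)^(1/2)`. -/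
theorem result : ∀ (Adj : ℤ × ℤ → ℤ × ℤ → Prop) (pos : ℤ × ℤ → ℂ) (s : ℕ), IsGrid Adj pos s →
    ∃ K : ℝ, ∀ D : Set (ℤ × ℤ), (∀ p : ℤ × ℤ, 0 ≤ (pos p).im → p ∈ D) →
    (∀ n : ℕ, 2 ≤ n →
      |h Adj D (n + s) / h Adj D n - mu Adj ^ s| ≤ K * (Real.log n / √(n : ℝ))) ∧
    (∀ (a L m : ℕ) (H : Set (Pairs a m)), 2 ≤ a + L + m → 1 ≤ L →
      0 < probH Adj D H (a + L + m) →
      ∀ G : Pairs a m → ℝ, (∀ o, 0 ≤ G o) → (∀ o, G o ≤ 1) →
      |mean Adj D H (a + L + m + s) G - mean Adj D H (a + L + m) G| ≤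
        K * √((Real.log (a + L + m : ℕ) ^ 2 + Real.log (1 / probH Adj D H (a + L + m))) / L)) := by
  intro Adj pos s hg
  obtain ⟨Z, K₀, rfl, hN, ⟨V⟩, K₁, hK₁, hD₀⟩ := facts hg
  obtain ⟨R₁, hR₁, h1⟩ := Q215.SAW.half_ratio hN.gr hN.sh V hK₁
  obtain ⟨R₂, hR₂, h2⟩ := Q215.SAW.half_window hN.gr hN.sh V hK₁
  refine ⟨R₁ + R₂, fun D hD => ⟨fun n hn => ?_, ?_⟩⟩
  · have h3 := h1 D (hD₀ D hD) n hn
    have h4 : 0 ≤ Real.log n / √(n : ℝ) :=
      div_nonneg (Real.log_natCast_nonneg n) (Real.sqrt_nonneg _)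
    have h5 : |h Adj D (n + Z.s) / h Adj D n - mu Adj ^ Z.s| ≤
        R₁ * (Real.log n / √(n : ℝ)) := h3
    refine h5.trans (mul_le_mul_of_nonneg_right (by linarith) h4)
  · intro a L m H hn hL hq G hG0 hG1
    have h3 := h2 D (hD₀ D hD) a L m H hn hL hq G hG0 hG1
    have h5 : |mean Adj D H (a + L + m + Z.s) G - mean Adj D H (a + L + m) G| ≤
        R₂ * √((Real.log (a + L + m : ℕ) ^ 2 + Real.log (1 / probH Adj D H (a + L + m))) / L) := h3
    refine h5.trans (mul_le_mul_of_nonneg_right (by linarith) (Real.sqrt_nonneg _))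

end Pool.Agent.Results.MP_df1d0b_pr.OtherGridsWindow
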