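import Pool.Agent.Q215.SAW.SubD
import Pool.Agent.Q215.SAW.PosH
import Pool.Agent.Q215.SAW.Lat

/-!
Half-plane self-avoiding walk on the square, triangular and hexagonal grids, and the walk in every
larger domain: the moments of the distance of the sites at the times `i` and `i + m` of the
`(i + m + j)`-step walk change little when a few steps are added to one of the three pieces of the
walk.
-/

set_option autoImplicit false

namespace Pool.Agent.Results.MP_df1d0b_pr.PairDistances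

/-- The square, the triangular and the hexagonal grid, in integer coordinates: the adjacency of the
sites and their positions in the plane (adjacent sites are at distance `1`, the horizontal direction
is that of an edge). Here `s = 2` for the square grid, `s = 1` for the triangular and `s = 4` for
the hexagonal grid. -/
def IsGrid (Adj : ℤ × ℤ → ℤ × ℤ → Prop) (pos : ℤ × ℤ → ℂ) (s : ℕ) : Prop :=
  (Adj = (fun p q : ℤ × ℤ => |p.1 - q.1| + |p.2 - q.2| = 1) ∧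
    pos = (fun p => ⟨p.2, p.1⟩) ∧ s = 2) ∨
  (Adj = (fun p q : ℤ × ℤ =>
      q - p ∈ ({(1, 0), (-1, 0), (0, 1), (0, -1), (1, -1), (-1, 1)} : Set (ℤ × ℤ))) ∧
    pos = (fun p => ⟨((p.1 : ℝ) - p.2) / 2, √3 / 2 * (p.1 + p.2)⟩) ∧ s = 1) ∨
  (Adj = (fun p q : ℤ × ℤ =>
      q - p = (1, 0) ∨ q - p = (-1, 0) ∨
      (q - p = (0, 1) ∧ Even (p.1 + p.2)) ∨
      (q - p = (0, -1) ∧ Even (q.1 + q.2))) ∧
    pos = (fun p => ⟨(3 * p.2 - ((p.1 + p.2) % 2 : ℤ)) / 2, √3 / 2 * p.1⟩) ∧ s = 4)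

/-- the `n`-step self-avoiding walks from the origin which stay in `D` -/
def walks (Adj : ℤ × ℤ → ℤ × ℤ → Prop) (D : Set (ℤ × ℤ)) (n : ℕ) : Set (Fin (n + 1) → ℤ × ℤ) :=
  {ω | (ω 0 = 0 ∧ Function.Injective ω ∧ ∀ i : Fin n, Adj (ω i.castSucc) (ω i.succ)) ∧
    ∀ i, ω i ∈ D}

/-- the mean of `F` under the uniform law on these walks -/
noncomputable def mean (Adj : ℤ × ℤ → ℤ × ℤ → Prop) (D : Set (ℤ × ℤ)) (n : ℕ)
    (F : (Fin (n + 1) → ℤ × ℤ) → ℝ) : ℝ :=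
  (∑ᶠ ω ∈ walks Adj D n, F ω) / ((walks Adj D n).ncard : ℝ)

/-- the site at time `t` (used for `t ≤ n`) -/
def site {n : ℕ} (ω : Fin (n + 1) → ℤ × ℤ) (t : ℕ) : ℤ × ℤ := ω (Fin.ofNat (n + 1) t)

/-- the moment of order `q` of the distance of the sites at the times `i` and `i + m` of the
`n`-step walk in `D` -/
noncomputable def mom (Adj : ℤ × ℤ → ℤ × ℤ → Prop) (pos : ℤ × ℤ → ℂ) (D : Set (ℤ × ℤ)) (q : ℝ)
    (n i m : ℕ) : ℝ :=
  mean Adj D n (fun ω => ‖pos (site ω (i + m)) - pos (site ω i)‖ ^ q)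

/-- the facts about the grids -/
theorem facts {Adj : ℤ × ℤ → ℤ × ℤ → Prop} {pos : ℤ × ℤ → ℂ} {s : ℕ} (hg : IsGrid Adj pos s) :
    ∃ (Z : TH966.AK.Rule Adj) (K : ℝ), Z.s = s ∧ Q215.SAW.Nice Z K ∧
      Nonempty (Q215.SAW.Vt Adj) ∧ Q215.SAW.PosOK Adj pos ∧ ∃ K₁ : ℝ, 0 ≤ K₁ ∧
        ∀ D : Set (ℤ × ℤ), (∀ p : ℤ × ℤ, 0 ≤ (pos p).im → p ∈ D) → ∀ n : ℕ, 2 ≤ n →
        Real.exp (-(K₁ * Real.log n ^ 2)) ≤ Q215.SAW.prD Adj D n := by
  have h3 : 0 < √(3 : ℝ) / 2 := by positivity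
  rcases hg with ⟨h, hpos, rfl⟩ | ⟨h, hpos, rfl⟩ | ⟨h, hpos, rfl⟩
  · obtain ⟨K, hK⟩ := Q215.SAW.sq_nice
    obtain ⟨K₁, hK₁, hh⟩ := Q215.SAW.half_sq
    have e : Adj = Q219.SAW.Sq.A := by
      rw [← Q215.SAW.sq_eq]; exact h
    have ep : pos = Q215.SAW.sqPosH := hpos
    subst e
    refine ⟨_, K, rfl, hK, ⟨Q215.SAW.sqV⟩, by rw [ep]; exact Q215.SAW.sqPosH_ok, K₁, hK₁,
      fun D hD n hn => ?_⟩
    rw [Q215.SAW.prD_eq _ _ 0 0]
    have h4 := hh n hn D (fun x hx => hD x (by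
      rw [hpos]
      have : (0 : ℝ) ≤ (x.1 : ℝ) := by exact_mod_cast hx
      exact this)) 0 0
    rw [Q215.SAW.sq_eq] at h4
    exact h4
  · obtain ⟨K, hK⟩ := Q215.SAW.tri_nice
    obtain ⟨K₁, hK₁, hh⟩ := Q215.SAW.half_tri
    have e : Adj = TH966.AK.Tri.A := by
      rw [← Q215.SAW.tri_eq]; exact h
    have ep : pos = Q215.SAW.triPosH := hpos
    subst e
    refine ⟨_, K, rfl, hK, ⟨Q215.SAW.triV⟩, by rw [ep]; exact Q215.SAW.triPosH_ok, K₁, hK₁,
      fun D hD n hn => ?_⟩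
    rw [Q215.SAW.prD_eq _ _ 0 0]
    have h4 := hh n hn D (fun x hx => hD x (by
      rw [hpos]
      have : (0 : ℝ) ≤ ((x.1 + x.2 : ℤ) : ℝ) := by exact_mod_cast hx
      push_cast at this
      exact mul_nonneg h3.le this)) 0 0
    rw [Q215.SAW.tri_eq] at h4
    exact h4
  · obtain ⟨K, hK⟩ := Q215.SAW.hex4_nice
    obtain ⟨K₁, hK₁, hh⟩ := Q215.SAW.half_hex
    have e : Adj = TH966.AK.Hex.A := by
      rw [← Q215.SAW.hex_eq]; exact h
    have ep : pos = Q215.SAW.hexPosH := hpos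
    subst e
    refine ⟨_, K, rfl, hK, ⟨Q215.SAW.hexV⟩, by rw [ep]; exact Q215.SAW.hexPosH_ok, K₁, hK₁,
      fun D hD n hn => ?_⟩
    rw [Q215.SAW.prD_eq _ _ 0 0]
    have h4 := hh n hn D (fun x hx => hD x (by
      rw [hpos]
      have : (0 : ℝ) ≤ (x.1 : ℝ) := by exact_mod_cast hx
      exact mul_nonneg h3.le this)) 0 0
    rw [Q215.SAW.hex_eq] at h4
    exact h4

/-- **Theorem.** Let `Adj`, `pos`, `s` be the square (`s = 2`), the triangular (`s = 1`) or the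
hexagonal grid (`s = 4`). There are `δ > 0` and for each order `q ≥ 0` a `K` such that for every set
`D` of sites which contains all sites in the closed upper half plane, and all `n = i + m + j ≥ 2`,
`m ≥ 1`, the moment `E_n |ω(i + m) - ω(i)| ^ q` of the uniform `n`-step self-avoiding walk in `D` is
at least `1` and its ratio to the one for the parameters
`(i + s, m, j)` is within `K log n / √i` of `1` if `log² n ≤ δ i`, to the one for
`(i, m + s, j)` within `K log n / √m` of `1` if `log² n ≤ δ m`, and to the one for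
`(i, m, j + s)` within `K log n / √j` of `1` if `log² n ≤ δ j`. -/
theorem result : ∀ (Adj : ℤ × ℤ → ℤ × ℤ → Prop) (pos : ℤ × ℤ → ℂ) (s : ℕ), IsGrid Adj pos s →
    ∃ δ : ℝ, 0 < δ ∧ ∀ q : ℝ, 0 ≤ q → ∃ K : ℝ, ∀ D : Set (ℤ × ℤ),
      (∀ p : ℤ × ℤ, 0 ≤ (pos p).im → p ∈ D) →
      ∀ i m j n : ℕ, n = i + m + j → 2 ≤ n → 1 ≤ m →
      1 ≤ mom Adj pos D q n i m ∧
      (Real.log n ^ 2 ≤ δ * i →
        |mom Adj pos D q (n + s) (i + s) m / mom Adj pos D q n i m - 1| ≤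
          K * (Real.log n / √i)) ∧
      (Real.log n ^ 2 ≤ δ * m →
        |mom Adj pos D q (n + s) i (m + s) / mom Adj pos D q n i m - 1| ≤
          K * (Real.log n / √m)) ∧
      (Real.log n ^ 2 ≤ δ * j →
        |mom Adj pos D q (n + s) i m / mom Adj pos D q n i m - 1| ≤
          K * (Real.log n / √j)) := by
  intro Adj pos s hg
  obtain ⟨Z, K₀, rfl, hN, ⟨V⟩, hp, K₁, hK₁, hD₀⟩ := facts hg
  obtain ⟨δ, hδ, h⟩ := Q215.SAW.subD_mom hN.gr hN.sh V hp hK₁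
  refine ⟨δ, hδ, fun q hq => ?_⟩
  obtain ⟨R, -, h1⟩ := h q hq
  exact ⟨R, fun D hD i m j n hn hn2 hm => h1 D (hD₀ D hD) i m j n hn hn2 hm⟩

end Pool.Agent.Results.MP_df1d0b_pr.PairDistances
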