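import Pool.Agent.Q219.SAW.Wdg

/-!
Half-plane self-avoiding walk on the square lattice conditioned to stay in a wedge, or in any set
which contains a wedge: the ratio of the numbers of walks with `n + 2` and `n` steps, and the law of
the walk outside a window of times, uniformly in the opening of the wedge.
-/

set_option autoImplicit false

namespace Pool.Agent.Results.MP_df1d0b_pr.WedgeWindow

open Q219.SAW.Std

/-- the wedge `|x| ≤ η y` in the closed upper half plane -/
def wedge (η : ℝ) : Set (ℤ × ℤ) := {x | |(x.1 : ℝ)| ≤ η * x.2}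

/-- the number of `n`-step self-avoiding walks on the square lattice from the origin which stay in
`D` -/
noncomputable def h (D : Set (ℤ × ℤ)) (n : ℕ) : ℝ :=
  ({ω : Fin (n + 1) → ℤ × ℤ | IsSAW sqSteps n ω ∧ ∀ i, ω i ∈ D}.ncard : ℝ)

/-- the probability of an event `H` for the outer part of the uniform `n`-step walk in `D` -/
noncomputable def probH (D : Set (ℤ × ℤ)) {a m : ℕ} (H : Set (Pairs a m)) (n : ℕ) : ℝ :=
  ((walks sqSteps D H n).ncard : ℝ) / h D n

theorem walks_univ (D : Set (ℤ × ℤ)) (a m n : ℕ) :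
    ((walks sqSteps D (Set.univ : Set (Pairs a m)) n).ncard : ℝ) = h D n := by
  unfold h
  congr 2
  ext ω
  unfold walks
  rw [Set.mem_ofPred_eq, Set.mem_ofPred_eq]
  simp

/-- **Theorem.** For a set `D` of sites of the square lattice let `h_n` be the number of the `n`-step
self-avoiding walks from the origin in `D` and `μ_n` the uniform law on them. There are `K` and
`δ > 0` such that for all `0 < η ≤ 1` and all `D` which contain the wedge `|x| ≤ η y` (in particular
for the wedge itself: the half-plane walk conditioned to stay in the wedge):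
(1) `|h_{n+2} / h_n - μ ^ 2| ≤ K (log³ n / (η n))^(1/2)` for all `n ≥ 2` with `log³ n ≤ δ η n`, where
`μ` is the connective constant;
(2) for every window `n = a + L + m ≥ 2`, `L ≥ 1`, and every event `H` for the outer part (the first
`a + 1` and the last `m + 1` sites) with `q = μ_n(H) > 0`, the conditional means of all functions
`0 ≤ G ≤ 1` of the outer part satisfy
`|μ_{n+2}[G | H] - μ_n[G | H]| ≤ K ((log³ n / η + log (1/q)) / L)^(1/2)`. -/
theorem result : ∃ K δ : ℝ, 0 < δ ∧ ∀ η : ℝ, 0 < η → η ≤ 1 → ∀ D : Set (ℤ × ℤ), wedge η ⊆ D →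
    (∀ n : ℕ, 2 ≤ n → Real.log n ^ 3 ≤ δ * (η * n) →
      |h D (n + 2) / h D n - mu sqSteps ^ 2| ≤ K * √(Real.log n ^ 3 / (η * n))) ∧
    (∀ (a L m : ℕ) (H : Set (Pairs a m)), 2 ≤ a + L + m → 1 ≤ L → 0 < probH D H (a + L + m) →
      ∀ G : Pairs a m → ℝ, (∀ o, 0 ≤ G o) → (∀ o, G o ≤ 1) →
      |mean sqSteps D H (a + L + m + 2) G - mean sqSteps D H (a + L + m) G| ≤
        K * √((Real.log (a + L + m : ℕ) ^ 3 / η + Real.log (1 / probH D H (a + L + m))) / L)) := by
  have hL : IsLat sqSteps 2 := Or.inl ⟨rfl, rfl⟩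
  obtain ⟨K₁, hK₁, hwed⟩ := wedge_eta
  obtain ⟨R, hR, htv⟩ := tv hL
  obtain ⟨R', δ, hR', hδ, hrat⟩ := ratio hL
  obtain ⟨hμ1, -, -⟩ := c_bounds hL
  have hμ0 : 0 < mu sqSteps := by linarith
  have hc := c_pos hL
  obtain ⟨B, hB⟩ : ∃ B : ℝ, B = 2 + K₁ := ⟨_, rfl⟩
  have hB0 : 0 < B := by linarith
  refine ⟨max (mu sqSteps ^ 2 * R' * √B) (R * √B), δ / B, by positivity, ?_⟩
  intro η hη hη1 D hD
  -- the common estimates
  have hgen : ∀ n : ℕ, 2 ≤ n → 0 < h D n ∧ 0 ≤ Real.log n ^ 3 / η ∧
      Real.log n ^ 2 ≤ 2 * (Real.log n ^ 3 / η) ∧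
      Real.exp (-(K₁ * (Real.log n ^ 3 / η))) ≤ h D n / c sqSteps n := by
    intro n hn
    have hn2 : (2 : ℝ) ≤ n := by exact_mod_cast hn
    have hl : 1 / 2 ≤ Real.log n := by
      have h1 := Real.log_le_log (by norm_num) hn2
      have h2 := Real.log_two_gt_d9
      linarith
    have hl3 : 0 ≤ Real.log n ^ 3 := by
      have : 0 ≤ Real.log n := by linarith
      positivity
    have h1 : Real.exp (-(K₁ * (Real.log n ^ 3 / η))) ≤ h D n / c sqSteps n := by
      have h2 := hwed η hη hη1 n hn 0 0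
      have e : K₁ / η * Real.log n ^ 3 = K₁ * (Real.log n ^ 3 / η) := by ring
      rw [e] at h2
      refine h2.trans ?_
      unfold prob
      rw [← walks_univ D 0 0]
      refine div_le_div_of_nonneg_right ?_ (hc n).le
      refine Nat.cast_le.2 (Set.ncard_le_ncard ?_ ((finite hL n).subset fun ω hω => hω.1))
      rintro ω ⟨h3, h4, h5⟩
      exact ⟨h3, fun i => hD (h4 i), h5⟩
    refine ⟨?_, by positivity, ?_, h1⟩
    · have h2 : 0 < h D n / c sqSteps n := (Real.exp_pos _).trans_le h1
      rcases lt_or_ge 0 (h D n) with h3 | h3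
      · exact h3
      · exact absurd h2 (not_lt.2 (div_nonpos_of_nonpos_of_nonneg h3 (hc _).le))
    · have h2 : Real.log n ^ 2 ≤ 2 * Real.log n ^ 3 := by
        have := sq_nonneg (Real.log n)
        nlinarith
      refine h2.trans ?_
      refine mul_le_mul_of_nonneg_left ?_ (by norm_num)
      rw [le_div_iff₀ hη]
      nlinarith
  have hcount : ∀ n, count sqSteps D Set.univ n = h D n := by
    intro n
    unfold count h
    congr 2
    ext ω
    rw [Set.mem_ofPred_eq, Set.mem_ofPred_eq]
    simp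
  constructor
  · intro n hn hsm
    obtain ⟨hh0, hx0, hlx, h1⟩ := hgen n hn
    have hn0 : (0 : ℝ) < n := by exact_mod_cast (show 0 < n by omega)
    obtain ⟨x, hx⟩ : ∃ x, x = Real.log n ^ 3 / η := ⟨_, rfl⟩
    have hxe : Real.log n ^ 3 / (η * n) = x / n := by rw [hx]; field_simp
    have hBx : B * x ≤ δ * n := by
      rw [hx]
      have h2 : B * (Real.log n ^ 3 / η) = B * Real.log n ^ 3 / η := by ring
      rw [h2, div_le_iff₀ hη]
      have h3 := mul_le_mul_of_nonneg_left hsm hB0.le
      refine h3.trans (le_of_eq ?_)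
      field_simp
    rw [← hx] at hx0 hlx h1
    rw [hxe]
    obtain ⟨h4, -⟩ := hrat n D Set.univ hn (by
      rw [hcount]
      refine le_trans (Real.exp_le_exp.2 ?_) h1
      have : K₁ * x ≤ B * x := mul_le_mul_of_nonneg_right (by linarith) hx0
      linarith)
    rw [hcount, hcount] at h4
    have e : h D (n + 2) / h D n - mu sqSteps ^ 2 =
        mu sqSteps ^ 2 * (h D (n + 2) / h D n / mu sqSteps ^ 2 - 1) := by
      field_simp
    rw [e, abs_mul, abs_of_pos (show 0 < mu sqSteps ^ 2 by positivity)]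
    have h5 : √((Real.log n ^ 2 + Real.log (1 / (h D n / c sqSteps n))) / n) ≤
        √B * √(x / n) := by
      rw [← Real.sqrt_mul hB0.le]
      refine Real.sqrt_le_sqrt ?_
      rw [← mul_div_assoc]
      refine div_le_div_of_nonneg_right ?_ hn0.le
      have h6 := Real.log_le_log (Real.exp_pos _) h1
      rw [Real.log_exp] at h6
      rw [one_div, Real.log_inv, hB]
      linarith
    calc mu sqSteps ^ 2 * |h D (n + 2) / h D n / mu sqSteps ^ 2 - 1| ≤
          mu sqSteps ^ 2 * (R' * (√B * √(x / n))) :=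
          mul_le_mul_of_nonneg_left (h4.trans (mul_le_mul_of_nonneg_left h5 hR'.le)) (by positivity)
      _ = mu sqSteps ^ 2 * R' * √B * √(x / n) := by ring
      _ ≤ _ := mul_le_mul_of_nonneg_right (le_max_left _ _) (Real.sqrt_nonneg _)
  · intro a L m H hN hL1 hq G hG0 hG1
    obtain ⟨hh0, hx0, hlx, h1⟩ := hgen (a + L + m) hN
    obtain ⟨x, hx⟩ : ∃ x, x = Real.log (a + L + m : ℕ) ^ 3 / η := ⟨_, rfl⟩
    rw [← hx] at hx0 hlx h1 ⊢
    have e : prob sqSteps D H (a + L + m) =
        h D (a + L + m) / c sqSteps (a + L + m) * probH D H (a + L + m) := by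
      unfold prob probH
      field_simp
    have hp : 0 < prob sqSteps D H (a + L + m) := by
      rw [e]
      exact mul_pos (div_pos hh0 (hc _)) hq
    have h2 := htv a L m D H hN hL1 hp G hG0 hG1
    refine h2.trans ?_
    have hq1 : probH D H (a + L + m) ≤ 1 := by
      unfold probH
      rw [div_le_one hh0, ← walks_univ D a m]
      refine Nat.cast_le.2 (Set.ncard_le_ncard ?_ ((finite hL _).subset fun ω hω => hω.1))
      rintro ω ⟨h3, h4, -⟩
      exact ⟨h3, h4, Set.mem_univ _⟩
    have hlq : 0 ≤ Real.log (1 / probH D H (a + L + m)) :=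
      Real.log_nonneg (by rw [le_div_iff₀ hq]; linarith)
    have h3 : Real.log (a + L + m : ℕ) ^ 2 + Real.log (1 / prob sqSteps D H (a + L + m)) ≤
        B * (x + Real.log (1 / probH D H (a + L + m))) := by
      rw [e, one_div, Real.log_inv, Real.log_mul (div_pos hh0 (hc _)).ne' hq.ne']
      have h4 := Real.log_le_log (Real.exp_pos _) h1
      rw [Real.log_exp] at h4
      rw [one_div, Real.log_inv] at hlq ⊢
      have h5 := mul_nonneg (show 0 ≤ 1 + K₁ by linarith) hlq
      rw [hB]
      linarith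
    have hL0 : (0 : ℝ) < L := by exact_mod_cast hL1
    have h4 : √((Real.log (a + L + m : ℕ) ^ 2 +
        Real.log (1 / prob sqSteps D H (a + L + m))) / L) ≤ √B *
        √((x + Real.log (1 / probH D H (a + L + m))) / L) := by
      rw [← Real.sqrt_mul hB0.le]
      refine Real.sqrt_le_sqrt ?_
      rw [← mul_div_assoc]
      exact div_le_div_of_nonneg_right h3 hL0.le
    calc _ ≤ R * (√B * √((x + Real.log (1 / probH D H (a + L + m))) / L)) :=
          mul_le_mul_of_nonneg_left h4 hR.le
      _ = R * √B * √((x + Real.log (1 / probH D H (a + L + m))) / L) := by ring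
      _ ≤ _ := mul_le_mul_of_nonneg_right (le_max_right _ _) (Real.sqrt_nonneg _)

end Pool.Agent.Results.MP_df1d0b_pr.WedgeWindow
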